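import Pool.Agent.Q36.EF.Syz

/-!
# The SYZ conjecture for quotients of complex tori, with an exponent depending on the dimension

`X = V / Γ` is a primitive symplectic variety of dimension `d`, the quotient of a complex torus by a
finite group. `latt`, `IsTorusQuotient`, `IsForm`, `IsPrimitiveSymplectic`, `LineBundle`,
`LineBundle.pow` and `LineBundle.IsTrivial` are defined in `Pool.Agent.W594.SYZ.Defs2`; `IsHermitian`,
`IsChernForm`, `IsNefForm`, `IsPositiveForm`, `IsDegenerateForm`, `IsLagrangianFibration` and `Induces`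
in `Pool.Agent.W594.SYZ.TQDefs`; `N`, `BasePointFree`, `SameImage`, `IsIso` and `Defines` in
`Pool.Agent.Q36.EF.Defs`.

The exponent is `N(d) = 3 ((3 ^ (4 d ^ 2))!) ^ 3`. The group `G` of the linear parts of `Γ` has an order
dividing `(3 ^ (4 d ^ 2))!` (Minkowski), the power `L ^ (|G| ^ 2)` descends to an ample line bundle `A` on
the base `B` of the Lagrangian fibration, the third power of `A` is very ample on the torus which
covers `B` (Lefschetz), and norms of its sections separate the points of `B`. By Liouville's theorem the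
sections of the powers of `L` are constant on the fibres.
-/

set_option autoImplicit false

universe u

namespace Pool.Agent.Results.MP_63735c_ag.EffectiveFibration

open Pool.Agent.W594.SYZ2 Q36.EF

/-- Let `X` be a primitive symplectic torus quotient of dimension `d` and `L` a line bundle on `X` with
Chern form `H` and `q_X(L) = 0`, that is, `H` is degenerate. Then `L` is nef if and only if `L ^ N(d)` is
base point free. In this case `H = 0` if and only if `L ^ N(d)` is trivial, and if `H ≠ 0` then the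
linear system `|L ^ N(d)|` defines a Lagrangian fibration `f`, and every Lagrangian
fibration induced by `L` is isomorphic to `f`. -/
theorem result {V : Type u} [NormedAddCommGroup V] [NormedSpace ℂ V] [FiniteDimensional ℂ V]
    (Γ : Subgroup (V ≃ᵃ[ℂ] V)) (hΓ : IsPrimitiveSymplectic Γ) (L : LineBundle Γ)
    (H : V → V → ℂ) (hc : IsChernForm L H) (hd : IsDegenerateForm H) :
    (IsNefForm H ↔ BasePointFree (L.pow (N (Module.finrank ℂ V)))) ∧
    (IsNefForm H →
      ((∀ v w, H v w = 0) ↔ (L.pow (N (Module.finrank ℂ V))).IsTrivial) ∧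
      ((∃ v w, H v w ≠ 0) → ∃ (n : ℕ) (Δ : Subgroup ((Fin n → ℂ) ≃ᵃ[ℂ] (Fin n → ℂ)))
        (π : V →ₗ[ℂ] (Fin n → ℂ)), IsLagrangianFibration Γ Δ π ∧
          Defines (L.pow (N (Module.finrank ℂ V)))
            (fun v w => (N (Module.finrank ℂ V) : ℂ) * H v w) Δ π ∧
          ∀ (n' : ℕ) (Δ' : Subgroup ((Fin n' → ℂ) ≃ᵃ[ℂ] (Fin n' → ℂ)))
            (π' : V →ₗ[ℂ] (Fin n' → ℂ)), IsLagrangianFibration Γ Δ' π' → Induces L Δ' π' →
            ∃ φ : (Fin n → ℂ) ≃ₗ[ℂ] (Fin n' → ℂ), (∀ v, π' v = φ (π v)) ∧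
              ∀ δ' : (Fin n' → ℂ) ≃ᵃ[ℂ] (Fin n' → ℂ),
                δ' ∈ Δ' ↔ ∃ δ ∈ Δ, ∀ w, δ' (φ w) = φ (δ w))) :=
  ⟨nef_iff hΓ.torus hΓ.h01 hc, fun hn => syz hΓ hc hn hd⟩

end Pool.Agent.Results.MP_63735c_ag.EffectiveFibration
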