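import Pool.Agent.Q276.SYZ.Ex3

set_option autoImplicit false

/-!
# A nontrivial nef line bundle `L` with `q_X(L) = 0` that induces no fibration

`IsPrimitiveSymplectic`, `LineBundle`, `LineBundle.pow`, `LineBundle.IsSection` and
`LineBundle.IsTrivial` are defined in `Pool.Agent.W594.SYZ.Defs2`; `IsChernForm`, `IsNefForm`,
`IsDegenerateForm`, `IsLagrangianFibration` and `Induces` in `Pool.Agent.W594.SYZ.TQDefs`.

The dihedral group `D` of order `8`, that is, the group of all integral orthogonal `2 × 2` matrices,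
acts on `V = ℂ² ⊕ ℂ²`, on both summands in the same way, and preserves the lattice `Λ` of all
`(x, y)`, `x, y ∈ ℤ[i]²`, with `y_1 ≡ y_2` modulo `2`.  Let `t = (1/2, 1/2; 1, 0)`.  The
transformations `v ↦ A v + b` (`det A = 1`) and `v ↦ A v + t + b` (`det A = -1`), `A ∈ D`, `b ∈ Λ`,
form a group `Γ`.  The only invariant forms on `V` of degree one and two are the multiples of
`dx_1 ∧ dy_1 + dx_2 ∧ dy_2`, and the elements of `Γ` with `det A = -1` have no fixed points, so
`γ ↦ det A` defines a line bundle on `X = V / Γ`, which is not trivial, but whose square is trivial.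
-/

namespace Pool.Agent.Results.MP_63735c_ag.NontrivialNefTorsion

open Pool.Agent.W594.SYZ2

/-- There are a primitive symplectic variety `X = V / Γ` of dimension four, the quotient of a complex
torus by a finite group, and a nef line bundle `L` on `X` with `q_X(L) = 0` such that `L` is not
isomorphic to `O_X`, every power of `L` has at most one section up to scalar factors, and `L` induces
no Lagrangian fibration.  In this example `L ^ 2` is trivial. -/
theorem result : ∃ (Γ : Subgroup ((Fin 2 → Fin 2 → ℂ) ≃ᵃ[ℂ] (Fin 2 → Fin 2 → ℂ)))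
    (L : LineBundle Γ) (H : (Fin 2 → Fin 2 → ℂ) → (Fin 2 → Fin 2 → ℂ) → ℂ),
    IsPrimitiveSymplectic Γ ∧ IsChernForm L H ∧ IsNefForm H ∧ IsDegenerateForm H ∧
    ¬ L.IsTrivial ∧
    (∀ (m : ℕ) (s s' : (Fin 2 → Fin 2 → ℂ) → ℂ), (L.pow m).IsSection s → (L.pow m).IsSection s' →
      ∃ a b : ℂ, (a ≠ 0 ∨ b ≠ 0) ∧ a • s + b • s' = 0) ∧
    (∀ (n : ℕ) (Δ : Subgroup ((Fin n → ℂ) ≃ᵃ[ℂ] (Fin n → ℂ)))
      (π : (Fin 2 → Fin 2 → ℂ) →ₗ[ℂ] (Fin n → ℂ)), IsLagrangianFibration Γ Δ π → ¬ Induces L Δ π) ∧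
    (L.pow 2).IsTrivial :=
  ⟨Q276.SYZ.Gam, Q276.SYZ.L, fun _ _ => 0, Q276.SYZ.primitive, Q276.SYZ.chern,
    fun _ => le_refl _, ⟨fun _ _ => 1, fun h => one_ne_zero (congrFun (congrFun h 0) 0),
      fun _ => rfl⟩,
    Q276.SYZ.not_trivial, Q276.SYZ.sections_le_one,
    fun _ Δ π hπ => Q276.SYZ.no_fibration Δ π hπ, Q276.SYZ.pow_two_trivial⟩

end Pool.Agent.Results.MP_63735c_ag.NontrivialNefTorsion
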