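import Pool.Agent.Q36.PI.Fib

/-!
# The powers of nef line bundles on primitive symplectic torus quotients which have sections

`X = V / Γ` is a primitive symplectic variety, the quotient of a complex torus by a finite group.
`latt`, `IsTorusQuotient`, `IsForm`, `IsPrimitiveSymplectic`, `LineBundle`, `LineBundle.pow` and
`LineBundle.IsSection` are defined in `Pool.Agent.W594.SYZ.Defs2`; `IsHermitian`, `IsChernForm`,
`IsNefForm`, `IsPositiveForm`, `IsDegenerateForm` and `IsLagrangianFibration` in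
`Pool.Agent.W594.SYZ.TQDefs`; `BasePointFree`, `SameImage`, `IsIso` and `Defines` in
`Pool.Agent.Q36.EF.Defs`.

The construction (as in `MP_b96d42_ag.LargeIndex`): the group of the affine transformations of the line
over the field `F` with `p ^ (n + 1)` elements acts on `Λ = (ℤ[i] ^ F / ℤ[i]) ^ 2`, and a character of
`Λ ⋊ AGL(1, F)` of order `p ^ n` is trivial on all elements with fixed points. The sections are constant
on the fibres of the Lagrangian fibration by Liouville's theorem, and the character is not trivial on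
the translations along the fibres.
-/

set_option autoImplicit false

namespace Pool.Agent.Results.MP_63735c_ag.PowersWithoutSections

open Pool.Agent.W594.SYZ2 Q36.EF

/-- The torus quotient `X = V / Γ` is a projective primitive symplectic variety. -/
def IsProjectiveSymplectic {V : Type} [NormedAddCommGroup V] [NormedSpace ℂ V]
    (Γ : Subgroup (V ≃ᵃ[ℂ] V)) : Prop :=
  IsPrimitiveSymplectic Γ ∧ ∃ (A : LineBundle Γ) (HA : V → V → ℂ), IsChernForm A HA ∧
    IsPositiveForm HA

/-- The Chern form `H` of a line bundle is nef, degenerate and not zero. -/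
def IsNefIsotropic {V : Type} [NormedAddCommGroup V] (H : V → V → ℂ) : Prop :=
  IsNefForm H ∧ IsDegenerateForm H ∧ ∃ v w, H v w ≠ 0

/-- (1) For every prime number `p` and `n ≥ 1` there are a projective primitive symplectic torus
quotient `X` of dimension `2 (p ^ (n + 1) - 1)`, a nef line bundle `L` on `X` with `c_1(L) ≠ 0` and
`q_X(L) = 0`, and a Lagrangian fibration `f : X → B` such that for all `k ≥ 1` the following are
equivalent: `p ^ n` divides `k`; the linear system `|L ^ k|` is base point free and defines `f`; `L ^ k` is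
base point free; `L ^ k` has a nonzero section; `L ^ k` is isomorphic to the pullback `f^* A` of a line
bundle `A` on `B`.

(2) If `L ^ N` has a nonzero section for all nef line bundles `L` with `c_1(L) ≠ 0` and `q_X(L) = 0` on all
projective primitive symplectic torus quotients `X` of dimension at most `d`, then `p ^ n` divides `N`
for all prime numbers `p` and all `n` with `2 (p ^ (n + 1) - 1) ≤ d`. -/
theorem result :
    (∀ p n : ℕ, p.Prime → 1 ≤ n →
      ∃ (V : Type) (_ : NormedAddCommGroup V) (_ : NormedSpace ℂ V) (_ : FiniteDimensional ℂ V)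
        (Γ : Subgroup (V ≃ᵃ[ℂ] V)) (L : LineBundle Γ) (H : V → V → ℂ) (r : ℕ)
        (Δ : Subgroup ((Fin r → ℂ) ≃ᵃ[ℂ] (Fin r → ℂ))) (π : V →ₗ[ℂ] (Fin r → ℂ)),
        Module.finrank ℂ V = 2 * (p ^ (n + 1) - 1) ∧ IsProjectiveSymplectic Γ ∧
        IsChernForm L H ∧ IsNefIsotropic H ∧ IsLagrangianFibration Γ Δ π ∧
        ∀ k : ℕ, 1 ≤ k → List.TFAE [p ^ n ∣ k, Defines (L.pow k) (fun v w => (k : ℂ) * H v w) Δ π,
          BasePointFree (L.pow k), ∃ s, (L.pow k).IsSection s ∧ s ≠ 0,
          ∃ (A : LineBundle Δ) (h : V → ℂ), IsIso (L.pow k) A π h]) ∧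
    ∀ d N : ℕ,
      (∀ (V : Type) (_ : NormedAddCommGroup V) (_ : NormedSpace ℂ V) (_ : FiniteDimensional ℂ V)
        (Γ : Subgroup (V ≃ᵃ[ℂ] V)) (L : LineBundle Γ) (H : V → V → ℂ), Module.finrank ℂ V ≤ d →
        IsProjectiveSymplectic Γ → IsChernForm L H → IsNefIsotropic H →
        ∃ s, (L.pow N).IsSection s ∧ s ≠ 0) →
      ∀ p n : ℕ, p.Prime → 2 * (p ^ (n + 1) - 1) ≤ d → p ^ n ∣ N := by
  constructor
  · intro p n hp hn
    obtain ⟨V, i1, i2, i3, Γ, L, H, h1, h2, h3, h4, h5, h6, h7, r, Δ, π, h8, h9, h10, h11⟩ :=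
      Q36.PI.exists_fib p hp n hn
    refine ⟨V, i1, i2, i3, Γ, L, H, r, Δ, π, h1, ⟨h2, h3⟩, h4, ⟨h5, h6, h7⟩, h8, fun k hk => ?_⟩
    tfae_have 1 → 2 := h9 k hk
    tfae_have 2 → 3 := fun h => h.bpf
    tfae_have 3 → 4 := by
      intro h
      obtain ⟨s, hs, h0⟩ := h 0
      exact ⟨s, hs, fun h' => h0 (by rw [h']; rfl)⟩
    tfae_have 4 → 1 := by
      rintro ⟨s, hs, h0⟩
      exact h10 k s hs h0
    tfae_have 2 → 5 := by
      intro h
      obtain ⟨A, HA, t, -, -, -, -, -, hi, -⟩ := h.pullback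
      exact ⟨A, t, hi⟩
    tfae_have 5 → 1 := by
      rintro ⟨A, t, hi⟩
      exact h11 k A t hi
    tfae_finish
  · intro d N h p n hp hd
    rcases Nat.eq_zero_or_pos n with rfl | hn
    · simp
    · obtain ⟨V, i1, i2, i3, Γ, L, H, h1, h2, h3, h4, h5, h6, h7, r, Δ, π, -, -, h10, -⟩ :=
        Q36.PI.exists_fib p hp n hn
      obtain ⟨s, hs, h0⟩ := h V i1 i2 i3 Γ L H (by rw [h1]; exact hd) ⟨h2, h3⟩ h4 ⟨h5, h6, h7⟩
      exact h10 N s hs h0

end Pool.Agent.Results.MP_63735c_ag.PowersWithoutSections
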